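import Pool.Agent.Lib.MP_0d46c2_al.Trans

set_option autoImplicit false

namespace Pool.Agent.Results.MP_0d46c2_al.Boundedness

/-- For every Coxeter system `(W, S)` with `S` finite there is a constant `C`, depending on `(W, S)`
only, such that for every weight function `L` and all `x, y, z` the degree of the structure constant
`f_{x,y,z}` of the Hecke algebra of `(W, S, L)` is at most the total weight of a set `K` of at most
`C` reflections, each of them a right inversion of `x` and a left inversion of `y`, any two of which
generate a finite group. In particular the degree is at most `C` times the largest `L(s)`. -/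
theorem result :
    ∀ (B : Type) [Fintype B] (M : CoxeterMatrix B) (W : Type) [Group W]
      (cs : CoxeterSystem M W), ∃ C : ℕ,
      ∀ (L : W → ℕ) (f : W → W → W → LaurentPolynomial ℤ),
        (∀ w w' : W, cs.length (w * w') = cs.length w + cs.length w' →
            L (w * w') = L w + L w') →
        (∀ y : W, f 1 y y = 1) →
        (∀ y z : W, y ≠ z → f 1 y z = 0) →
        (∀ (i : B) (x y w : W), cs.length x < cs.length (cs.simple i * x) →
            cs.length w < cs.length (cs.simple i * w) →
            f (cs.simple i * x) y w = f x y (cs.simple i * w)) →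
        (∀ (i : B) (x y w : W), cs.length x < cs.length (cs.simple i * x) →
            cs.length (cs.simple i * w) < cs.length w →
            f (cs.simple i * x) y w = f x y (cs.simple i * w) +
              (LaurentPolynomial.T ((L (cs.simple i) : ℕ) : ℤ) -
                LaurentPolynomial.T (-((L (cs.simple i) : ℕ) : ℤ))) * f x y w) →
        ∀ x y z : W, ∃ (K : Finset W) (ω : W → ℕ),
          (∀ t ∈ K, cs.IsRightInversion x t ∧ cs.IsLeftInversion y t ∧
            ∃ i : B, IsConj (cs.simple i) t ∧ ω t = L (cs.simple i)) ∧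
          (∀ t ∈ K, ∀ t' ∈ K, IsOfFinOrder (t * t')) ∧
          LaurentPolynomial.degree (f x y z) ≤ (((∑ t ∈ K, ω t : ℕ) : ℤ) : WithBot ℤ) ∧
          K.card ≤ C ∧
          ∑ t ∈ K, ω t ≤ C * Finset.univ.sup (fun i : B => L (cs.simple i)) := by
  classical
  intro B _ M W _ cs
  obtain ⟨C, hC⟩ := CoxBound.crossing_family cs
  refine ⟨C, fun L f hL h1 h2 h3 h4 x y z => ?_⟩
  obtain ⟨K, ω, hcard, hK, hfin, hdeg⟩ := hC L f hL ⟨h1, h2, h3, h4⟩ x y z
  refine ⟨K, ω, hK, hfin, hdeg, hcard, ?_⟩
  have hle : ∀ t ∈ K, ω t ≤ Finset.univ.sup (fun i : B => L (cs.simple i)) := by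
    intro t ht
    obtain ⟨-, -, i, -, hi⟩ := hK t ht
    rw [hi]
    exact Finset.le_sup (f := fun i : B => L (cs.simple i)) (Finset.mem_univ i)
  calc ∑ t ∈ K, ω t ≤ ∑ _t ∈ K, Finset.univ.sup (fun i : B => L (cs.simple i)) :=
        Finset.sum_le_sum hle
    _ = K.card * Finset.univ.sup (fun i : B => L (cs.simple i)) := by
        rw [Finset.sum_const, smul_eq_mul]
    _ ≤ C * Finset.univ.sup (fun i : B => L (cs.simple i)) := Nat.mul_le_mul_right _ hcard

end Pool.Agent.Results.MP_0d46c2_al.Boundedness
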